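import Pool.Agent.K4H62.AP.Big
import Pool.Agent.K4H25.AB.Main

/-!
# Abundance for pairs on the images of fibrations by curves

Let `V` be a projective variety over `ℂ` of dimension `n + 1` and `V ⇢ V'` a rational map with
irreducible generic fibres onto a variety of dimension `n`, with function field `ℂ(t 1, ..., t N)`;
let `H` be the pullback of the hyperplane class under `V ⇢ V' ⊂ ℙ ^ N`. The fibres are curves of any
genus. Suppose that there are sections of `K_V - M H` which generate the regular differentials of
the (geometric) generic fibre: canonical forms `ω j` on `V` such that `t ^ a ω j` is regular for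
`|a| ≤ M` and such that the restrictions of the `ω j` generate. For example `V` may be a general
hypersurface of multidegree `(e 1, ..., e n, a, b)` in `(ℙ ^ 1) ^ (n + 2)` with `e l ≥ M + 2`.

Let `V ⇢ W` be any dominant rational map of finite degree; it is not assumed to be related to the
fibration. Let `W'` be the image of `V` in `W × V'`, and let `m` be the degree of `W' → W`; it is at
most the degree of `V ⇢ W`.

Let `X` be any normal projective variety which is birational to `W`, with arbitrary singularities, and
`Δ` any effective `ℚ`-divisor on `X`, for instance such that the pair `(X, Δ)` is klt. Suppose that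
`W` is not uniruled.

* If `m ≤ M + 1` then `κ(K_X + Δ) ≥ 0`.
* If `m ≤ M` then `κ(K_X + Δ) ≥ dim X - 2`.
* If `2 m ≤ M + 1`, or if `m ≤ M` and `κ(V') ≥ 0`, then `κ(K_X + Δ) = ν(K_X + Δ) ≥ dim X - 1`.

If `(X, Δ)` is klt, `K_X + Δ` is nef and `κ(K_X + Δ) ≥ dim X - 3` then `K_X + Δ` is semiample (Lai,
Kawamata, and abundance in dimension at most three). So the problem has a positive answer for the
projective klt pairs `(X, Δ)` such that `X` is birational to an image `W` which is not uniruled, with
`m ≤ M`; in the last case of the theorem this is the equality of `κ` and `ν`.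

Proof. (a) The lower bounds for `κ(W)` are theorems on the canonical forms `Tr (A(t) h)` on `W`, where
`h` is the trace of some `ω j` on `W'` and `A` a polynomial of degree at most `M`: if there is a
vector field on `W` which preserves their ratios and moves the `m` points of `V'` over a general point
of `W`, then these points are on a line and move along this line (Cayley-Bacharach for double points),
and the line is preserved. (b) The sections of the multiples of `K_W` give sections of the multiples
of `K_X + Δ`. (c) If `K_X + Δ` is not big then `h⁰ (m (K_X + Δ) + A) = O (m ^ (dim X - 1))` for every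
divisor `A`: there is a function `b` on `X` such that no section of `m (K_X + Δ) + A` vanishes along
the divisor of the zeros of `b`. So the sum of the spaces `b ^ j H⁰ (m (K_X + Δ) + A)`, `j ≤ m`, is
direct, and its dimension is at most `C m ^ (dim X)`. Hence `κ(K_X + Δ) ≥ dim X - 1` implies
`κ(K_X + Δ) = ν(K_X + Δ)`.

`NormalModel`, `IsPrimeDivisor`, `Effective`, `Integral`, `kodairaDim` and `numericalDim` are defined
in `Pool.Agent.Y172.Defs`.
-/

set_option autoImplicit false
set_option linter.overlappingInstances false
set_option maxHeartbeats 4000000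
set_option synthInstance.maxHeartbeats 400000

open FF Module Pool.Agent Pool.Agent.W602.GT Pool.Agent.W603.LV Pool.Agent.Y172
open Pool.Agent.W619.PQ (IsUniruled)

namespace Pool.Agent.Results.MP_9a2ae6_ag.FibrationImagePairs

/-- `ω` is a canonical form on the variety of dimension `n` with the function field `K` which is a
section of `K_V - M H`, where `H` is the pullback of the hyperplane class under the map given by
`1, t 1, ..., t N`: the forms `t ^ a ω`, `|a| ≤ M`, are regular at all prime divisors. -/
def Twisted {K : Type} [Field K] [Algebra ℂ K] {N : ℕ} (n M : ℕ) (t : Fin N → K)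
    (ω : (Fin n → Derivation ℂ K K) → K) : Prop :=
  IsPluri 1 ω ∧ ∀ a : Fin N → ℕ, ∑ j, a j ≤ M → ∀ P : Place ℂ K, Divisorial n P →
    RegAt P (fun D => (∏ j, t j ^ a j) * ω D)

/-- The restrictions of the canonical forms `ω j` on `V` to the geometric generic fibre of
`V ⇢ V'`, `ℂ(V') = B`, generate its regular differentials. Here `F` is the function field of the
geometric generic fibre, over the algebraically closed field `Λ`, and `φ : K → F` is the
restriction; `ξ` is a coordinate of the fibre, `E` are the vector fields dual to the coordinates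
`t, ξ` of `V`, and the restriction of `ω j` is `φ (ω j E) dξ`; a differential `f dξ` on the fibre is
regular if `ord_Q f + ord_Q dξ ≥ 0` for all places `Q`, where `ord_Q dξ = - vo Q D`, `D = d/dξ`. -/
def GenerateFibre {K : Type} [Field K] [Algebra ℂ K] {n : ℕ} {J : Type}
    (B : IntermediateField ℂ K) (ω : J → (Fin (n + 1) → Derivation ℂ K K) → K) : Prop :=
  ∀ (Λ F : Type) [Field Λ] [IsAlgClosed Λ] [Algebra ℂ Λ] [Field F] [Algebra Λ F]
    [Algebra ℂ F] [IsScalarTower ℂ Λ F] (φ : K →ₐ[ℂ] F), IsFF Λ F →
    IntermediateField.adjoin Λ (Set.range φ) = ⊤ →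
    (∀ z ∈ B, ∃ a : Λ, algebraMap Λ F a = φ z) →
    (∀ z : K, ¬ IsAlgebraic B z → Transcendental Λ (φ z)) →
    ∀ (t : Fin n → K) (ξ : K), (∀ j, t j ∈ B) →
      IsTranscendenceBasis ℂ (Fin.append t (fun _ : Fin 1 => ξ)) →
    ∀ E : Fin (n + 1) → Derivation ℂ K K,
      (∀ i j, E i (Fin.append t (fun _ : Fin 1 => ξ) j) = if i = j then 1 else 0) →
    ∀ D : Derivation Λ F F, D (φ ξ) = 1 →
      (∀ j (Q : Place Λ F), φ (ω j E) = 0 ∨ vo Q D ≤ Q.ord (φ (ω j E))) →
    ∀ f : F, f ≠ 0 → (∀ Q : Place Λ F, vo Q D ≤ Q.ord f) →
      f ∈ Submodule.span Λ (Set.range fun j => φ (ω j E))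

/-- The Kodaira dimension of the smooth projective varieties of dimension `n` over `ℂ` with the
function field `B` is at least `0`: there is a nonzero `r`-fold canonical form, `r ≥ 1`, which is
regular at all prime divisors. -/
def KappaNonneg (B : Type) [Field B] [Algebra ℂ B] (n : ℕ) : Prop :=
  KodGe ℂ B n (fun _ => False) 0

/-- **Pairs on images of fibrations by curves.** Let `V` be a variety of dimension `n + 1` with
function field `K`, and `V ⇢ V'` a rational map onto a variety of dimension `n` with function field
`ℂ(t)`, with irreducible generic fibres. Let the `ω j` be finitely many canonical forms such that the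
`t ^ a ω j`, `|a| ≤ M`, are regular and whose restrictions generate the regular differentials of the
geometric generic fibre. Let `V ⇢ W` be a dominant rational map of finite degree, `L` the function
field of `W`, and `m` the degree over `W` of the image of `V` in `W × V'`. Suppose that `W` is not
uniruled. Let `X` be a normal projective variety with the function field `L` and with the generic
point `y`, and `Δ` an effective `ℚ`-divisor on `X`.
If `m ≤ M + 1` then `κ(K_X + Δ) ≥ 0`. If `m ≤ M` then `κ(K_X + Δ) ≥ dim X - 2`. If `2 m ≤ M + 1`,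
or if `m ≤ M` and `κ(V') ≥ 0`, then `κ(K_X + Δ) = ν(K_X + Δ) ≥ dim X - 1`. -/
theorem result {n N M : ℕ} {K : Type} [Field K] [Algebra ℂ K] [Algebra.EssFiniteType ℂ K]
    (hK : Algebra.trdeg ℂ K = (n + 1 : ℕ)) {t : Fin N → K}
    (hd : Algebra.trdeg ℂ (IntermediateField.adjoin ℂ (Set.range t)) = (n : ℕ))
    (hcl : ∀ g : K, IsAlgebraic (IntermediateField.adjoin ℂ (Set.range t)) g →
      g ∈ IntermediateField.adjoin ℂ (Set.range t))
    {J : Type} [Finite J] {ω : J → (Fin (n + 1) → Derivation ℂ K K) → K}
    (hω : ∀ j, Twisted (n + 1) M t (ω j))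
    (hgen : GenerateFibre (IntermediateField.adjoin ℂ (Set.range t)) ω)
    (L : Type) [Field L] [Algebra ℂ L] [Algebra L K] [IsScalarTower ℂ L K]
    [FiniteDimensional L K] {m : ℕ}
    (hm : Module.finrank L (IntermediateField.adjoin L (Set.range t)) = m)
    (hu : ¬ IsUniruled ℂ L (n + 1)) {N' : ℕ} {y : Fin (N' + 1) → L} (hy : NormalModel y)
    {Δ : Place ℂ L → ℚ} (hΔ : Effective y Δ) :
    (m ≤ M + 1 → 0 ≤ kodairaDim y (n + 1) Δ) ∧
    (m ≤ M → ((n - 1 : ℕ) : WithBot ℕ) ≤ kodairaDim y (n + 1) Δ) ∧
    (2 * m ≤ M + 1 ∨ (m ≤ M ∧ KappaNonneg (IntermediateField.adjoin ℂ (Set.range t)) n) →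
      ∃ κ : ℕ, n ≤ κ ∧ kodairaDim y (n + 1) Δ = (κ : WithBot ℕ) ∧
        ∀ A, Effective y A → Integral y A → numericalDim y (n + 1) Δ A = (κ : EReal)) := by
  classical
  have hL : Algebra.trdeg ℂ L = (n + 1 : ℕ) := Pool.Agent.Y184.NT.trdeg_below (K := K) hK
  have hpos : 0 < Module.finrank L (IntermediateField.adjoin L (Set.range t)) :=
    Module.finrank_pos
  have hzero : Module.finrank L (IntermediateField.adjoin L (Set.range t)) ≤ M + 1 →
      KodGe ℂ L (n + 1) (fun _ => False) 0 := by
    intro hs
    have h1 := ((Pool.Agent.K4H25.AB.main_tfae hK hd hcl hω hgen L hs).out 1 3).not.2 hu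
    exact not_not.1 h1
  refine ⟨fun hs => ?_, fun hs => ?_, fun hs => ?_⟩
  · exact Pool.Agent.K4H25.PC.kodairaDim_ge hy hL hΔ (hzero (by omega))
  · rcases Nat.eq_zero_or_pos n with h0 | h0
    · subst h0
      exact Pool.Agent.K4H25.PC.kodairaDim_ge hy hL hΔ (hzero (by omega))
    · obtain ⟨r, rfl⟩ : ∃ r, n = r + 1 := ⟨n - 1, by omega⟩
      have h1 := ((Pool.Agent.K4H25.AB.main_curve (by omega) hK hd hcl hω hgen L (by omega)).1 r
        rfl).resolve_left hu
      exact Pool.Agent.K4H25.PC.kodairaDim_ge hy hL hΔ h1
  · refine Pool.Agent.K4H62.AP.dims_curve hy hL hΔ ?_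
    rcases hs with hs | ⟨hs, hκ⟩
    · exact (Pool.Agent.K4H25.AB.main_half hK hd hcl hω hgen L (by omega)).resolve_left hu
    · exact ((Pool.Agent.K4H25.AB.main_curve (by omega) hK hd hcl hω hgen L
        (by omega)).2 hκ).resolve_left hu

end Pool.Agent.Results.MP_9a2ae6_ag.FibrationImagePairs
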