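import Pool.Agent.K4H25.PC.Pairs

/-!
# Abundance for pairs on the images of varieties over products of curves

Let `V` be a variety of dimension `n` with a generically finite rational map to a product
`C 1 × ... × C n` of curves, such that the gonality of `C p` is at least `M p + 2`: all nonconstant
rational functions on `C p` have degree at least `M p + 2`. Let `V ⇢ W` be a dominant rational map of
finite degree. The map is arbitrary otherwise; it is not assumed to be Galois, or to be related to the
curves. Let `W'` be the image of `V` in `W × C 1 × ... × C n` and, for a nonempty set `Λ` of indices,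
let `W' Λ` be its image in the product of `W` and the `C p`, `p ∉ Λ`, and `m Λ` the degree of
`W' → W' Λ`. In particular `m Λ ≤ m`, where `m` is the degree of `V ⇢ W`. Suppose that
`m Λ ≤ 1 + ∑_{p ∈ Λ} M p` for all `Λ ≠ ∅`.

Let `X` be any normal projective variety which is birational to `W`, and `Δ` any effective
`ℚ`-divisor on `X`, for instance such that the pair `(X, Δ)` is klt.

* Let `r ≤ n` be such that `2 m Λ ≤ 1 + ∑_{p ∈ Λ} M p` for all `Λ` with more than `n - r` elements.
  Then `κ(K_X + Δ) ≥ r`. This includes `κ(K_X + Δ) ≥ 0`, for `r = 0`.
* If `2 m Λ ≤ 1 + ∑_{p ∈ Λ} M p` for all `Λ ≠ ∅` then `κ(K_X + Δ) = ν(K_X + Δ) = n`.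

For example, suppose that the gonality of all curves is at least `3`, and that any two points of
`C 1 × ... × C n` over a general point of `W` differ in at least `m - 1` coordinates. Then the
assumption holds with `M p = 1`, since `m Λ = 1` if `Λ` has less than `m - 1` elements, and
`κ(K_X + Δ) ≥ 0`. If they differ in at least `2 m - 1` coordinates then `κ(K_X + Δ) = ν(K_X + Δ) = n`.
The degree can be much larger than the gonalities here, and `W` may have no regular differentials of
degree one, for instance if `V` is the product and `W` its quotient by a cyclic group which acts on all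
factors with rational quotients. (If all gonalities are greater than `m`, then `W` has maximal Albanese
dimension; in this case the abundance conjecture is known, by a theorem of Fujino.) If `(X, Δ)` is klt,
`K_X + Δ` is nef and `κ(K_X + Δ) ≥ dim X - 3` then `K_X + Δ` is semiample (Lai, Kawamata, and abundance
in dimension at most three).

Proof. Let `h` be the trace on `W'` of the form `d x 1 ∧ ... ∧ d x n`, where `x p` is a function on
`C p`, let `G` be a product of functions `g p` on `C p` such that `g p d x p` is regular, and consider
the canonical forms `Tr (G h)` on `W`. Suppose that their ratios generate a field `E` of transcendence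
degree `e < r`. Let `w` and `w'` be independent generic points of a fibre of the map of `W` given by
these ratios, and `v_1, ..., v_m` and `v'_1, ..., v'_m` the points of `C 1 × ... × C n` over them. There
is a linear relation, with nonzero coefficients, between the values of the `G` in the `2 m` points. If
`v_1` and `v'_i` agree in the factors `p ∉ Λ` then `n - |Λ| ≤ e < r`. The number of the `i` such that
`v_i` and `v_1` agree in the factors `p ∉ Λ` is `m Λ`, and the number of the `v'_i` is `0` or `m Λ`. By
the marriage theorem one can assign to all points except `v_1` a factor in which they differ from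
`v_1`, such that the factor `p` is used at most `M p` times. By the theorem of Riemann-Roch and the
assumption on the gonality, `M p + 1` different points of `C p` impose independent conditions on the
regular differentials; this also holds for points with values in an extension of the base field, by
specialization. So there is a product `G` which vanishes in all points except `v_1`, a contradiction.

`NormalModel`, `IsPrimeDivisor`, `Effective`, `Integral`, `kodairaDim` and `numericalDim` are defined
in `Pool.Agent.Y172.Defs`.
-/

set_option autoImplicit false
set_option linter.overlappingInstances false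
set_option maxHeartbeats 4000000
set_option synthInstance.maxHeartbeats 400000

open FF Module Pool.Agent Pool.Agent.W602.GT Pool.Agent.Y172

namespace Pool.Agent.Results.MP_9a2ae6_ag.ImagesOverCurves

/-- The gonality of the curve with the function field `E` is at least `g`: all nonconstant functions
have degree at least `g`. -/
def GonalityGe (E : Type) [Field E] [Algebra ℂ E] (g : ℕ) : Prop :=
  ∀ b : E, Transcendental ℂ b → g ≤ finrank (IntermediateField.adjoin ℂ {b}) E

/-- The degree `m Λ` of `W' → W' Λ`: the degree of the field which is generated over `L` by the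
function fields of the curves `C p` over its subfield which is generated by those with `p ∉ Λ`. -/
noncomputable def blockDegree {K : Type} [Field K] [Algebra ℂ K] {n : ℕ} (L : Type) [Field L]
    [Algebra L K] (C : Fin n → IntermediateField ℂ K) (Λ : Finset (Fin n)) : ℕ :=
  (IntermediateField.adjoin L {z | ∃ p, p ∉ Λ ∧ z ∈ C p}).relfinrank
    (IntermediateField.adjoin L {z | ∃ p, z ∈ C p})

/-- **Pairs on images of varieties over products of curves.** Let `V` be a variety of dimension `n`
with function field `K` and with rational maps to the curves with the function fields `C p`, such that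
`V` is generically finite over their product: the field generated by the `C p` has transcendence
degree `n`. Let the gonality of the curve `p` be at least `M p + 2`. Let `V ⇢ W` be a dominant rational
map of finite degree, `L` the function field of `W`, and `m Λ ≤ 1 + ∑_{p ∈ Λ} M p` for all nonempty
sets `Λ`. Let `X` be a normal projective variety with the function field `L` and with the generic point
`y`, and `Δ` an effective `ℚ`-divisor on `X`.
If `r ≤ n` and `2 m Λ ≤ 1 + ∑_{p ∈ Λ} M p` for all `Λ` with more than `n - r` elements, then
`κ(K_X + Δ) ≥ r`. If this inequality holds for all nonempty `Λ`, then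
`κ(K_X + Δ) = ν(K_X + Δ) = n`. -/
theorem result {n : ℕ} {K : Type} [Field K] [Algebra ℂ K] [Algebra.EssFiniteType ℂ K]
    (hK : Algebra.trdeg ℂ K = (n : ℕ)) {C : Fin n → IntermediateField ℂ K}
    (hfg : ∀ p, Algebra.EssFiniteType ℂ (C p)) (hone : ∀ p, Algebra.trdeg ℂ (C p) = 1)
    (hfin : Algebra.trdeg ℂ (⨆ p, C p : IntermediateField ℂ K) = (n : ℕ)) {M : Fin n → ℕ}
    (hgon : ∀ p : Fin n, GonalityGe (C p) (M p + 2))
    (L : Type) [Field L] [Algebra ℂ L] [Algebra L K] [IsScalarTower ℂ L K]
    [FiniteDimensional L K]
    (hdeg : ∀ Λ : Finset (Fin n), Λ.Nonempty → blockDegree L C Λ ≤ 1 + ∑ p ∈ Λ, M p)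
    {N : ℕ} {y : Fin (N + 1) → L} (hy : NormalModel y) {Δ : Place ℂ L → ℚ} (hΔ : Effective y Δ) :
    (∀ r : ℕ, r ≤ n →
      (∀ Λ : Finset (Fin n), n - r < Λ.card → 2 * blockDegree L C Λ ≤ 1 + ∑ p ∈ Λ, M p) →
      (r : WithBot ℕ) ≤ kodairaDim y n Δ) ∧
    ((∀ Λ : Finset (Fin n), Λ.Nonempty → 2 * blockDegree L C Λ ≤ 1 + ∑ p ∈ Λ, M p) →
      kodairaDim y n Δ = (n : WithBot ℕ) ∧
        ∀ A, Effective y A → Integral y A → numericalDim y n Δ A = (n : EReal)) := by
  have hFF : ∀ p, IsFF ℂ (C p) := fun p => ⟨hfg p, hone p⟩
  have hL : Algebra.trdeg ℂ L = (n : ℕ) := Pool.Agent.Y184.NT.trdeg_below (K := K) hK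
  have hC : (IntermediateField.adjoin ℂ {z : K | ∃ p, z ∈ C p}) = ⨆ p, C p := by
    apply le_antisymm
    · rw [IntermediateField.adjoin_le_iff]
      rintro z ⟨p, hz⟩
      exact le_iSup C p hz
    · exact iSup_le fun p z hz => IntermediateField.subset_adjoin ℂ _ ⟨p, hz⟩
  obtain ⟨-, h2⟩ := Pool.Agent.K4H25.PC.main_curves (C := C) hK (by rw [hC]; exact hfin) (M := M)
    (fun p b hb => hgon p b hb) L (fun Λ hΛ => (hdeg Λ hΛ).trans_eq (add_comm _ _))
  refine ⟨fun r hr hk => ?_, fun hk => ?_⟩
  · exact Pool.Agent.K4H25.PC.kodairaDim_ge hy hL hΔ
      (h2 r hr fun Λ hΛ => (hk Λ (by omega)).trans_eq (add_comm _ _))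
  · exact Pool.Agent.K4H25.PC.dims_general hy hL hΔ
      (h2 n le_rfl fun Λ hΛ => (hk Λ (Finset.card_pos.1 (by omega))).trans_eq (add_comm _ _))

end Pool.Agent.Results.MP_9a2ae6_ag.ImagesOverCurves
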