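import Pool.Agent.K4H25.RP.P4

/-!
# Abundance for pairs over a base

Let `V → Y` be a dominant rational map of complex varieties and `V_y` its generic fibre, let `t` be a
rational map of `V` to a product of projective spaces `P_1 × ... × P_q`, and `H p` the pull-back of the
hyperplane class of `P_p`. Let the `τ j` be finitely many sections of `K_{V/Y} - ∑ M p H p`: relative
canonical forms such that the forms `A(t) τ j ∧ η` are regular (on all models of `V`, over the open sets
of all models of `Y` where the canonical form `η` of `Y` is regular), for all polynomials `A` whose degree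
in the variables of the block `p` is at most `M p`. For example `V = V_1 × Y'`, where `Y' → Y` is a map of
finite degree and the `τ j` are sections of `K_{V_1} - ∑ M p H p`. Let `d` be the dimension of the image
of `V_y` under `t`.

Let `V → W → Y` be a factorisation with `V → W` of finite degree, without any other condition on the map
`V → W`, and `F` the generic fibre of `W → Y`. Let `W'` be the image of `V` in `W × P_1 × ... × P_q`, `m`
the degree of `W'` over `W` and, for a nonempty set `Λ` of blocks, `m Λ` the degree of `W'` over its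
image in the product of `W` and the `P_p`, `p ∉ Λ`; so `m Λ ≤ m`. Suppose that one of the following is
true.

* (a) The trace of one of the forms `τ j` on `W'` is not zero. (This is so if `V` is birational to `W'`.)
* (b) The generic fibres of `V` over its image `V'` in `Y × P_1 × ... × P_q` are irreducible curves, the
  `τ j` generate the regular differentials of the geometric generic fibre, and `W` is not uniruled. So
  `d = dim F - 1`.

Let `X` be any normal projective variety which is birational to `W`, and `Δ` any effective `ℚ`-divisor on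
`X`, for instance such that `(X, Δ)` is klt. Let `Δ_Y` be the largest divisor on `Y` whose pull-back to
`X` is at most `Δ`: the coefficient of `Δ_Y` at `R` is the minimum of the numbers `Δ(P) / c(P)` for the
prime divisors `P` of `X` over `R`, where `c(P)` is the ramification index. Here `R` is any place of
`ℂ(Y)` under a prime divisor of `X` (the prime divisors of `Y` if `X → Y` is an equidimensional morphism,
for example if `Y` is a curve; in general some exceptional ones have to be considered), and other places
are not considered. Let `κ_Y = κ(K_Y + Δ_Y)`; it is at least `κ(Y)`, but it can be large if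
`κ(Y) = -∞`.

* Let `m Λ ≤ 1 + ∑_{p ∈ Λ} M p` for all `Λ ≠ ∅`, and `2 m Λ ≤ 1 + ∑_{p ∈ Λ} M p` if moreover the image of
  `V_y` in the product of the `P_p`, `p ∉ Λ`, has dimension less than `r`, where `r ≤ d`. Then
  `κ(K_X + Δ) ≥ r + κ_Y`. If `r + κ_Y ≥ dim X - 1` then `κ(K_X + Δ) = ν(K_X + Δ)`.
* If `m ≤ M p` for all `p` then the same is true for `r = d - 1`.
* In the case (b), if `2 m Λ ≤ 1 + ∑_{p ∈ Λ} M p` for all `Λ ≠ ∅` and `F` is of general type then the
  same is true for `r = dim F`.

So in the case (b), if `2 m Λ ≤ 1 + ∑_{p ∈ Λ} M p` for all `Λ ≠ ∅` and `K_Y + Δ_Y` is big, then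
`κ(K_X + Δ) = ν(K_X + Δ) ≥ dim X - 1`. For example this is true if `Y` is of general type, or if `Y` is a
rational curve and the sum of the coefficients of `Δ_Y` is greater than `2`. If `(X, Δ)` is klt and
`K_X + Δ` is nef then `κ = ν` implies that `K_X + Δ` is semiample (Kawamata).

Proof. The traces `T` on `W` of the forms `A(t) τ j` are relative canonical forms, and enough of their
ratios are algebraically independent over `ℂ(Y)` (`MP_f72953_ag.RelativeTwistedForms`; in the case (b)
some trace is not zero, since otherwise the fibres of `W' → V'` would be rational curves, and `W`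
uniruled; `MP_f72953_ag.RelativeCurveFibrations` if `F` is of general type). If `β` is a section of
`s (K_Y + Δ_Y)` then the products `T_1 ... T_s β` are sections of `s (K_X + Δ)`: at a prime divisor `P` of
`X` over `R`, `β = u η ^ s` where `η` generates the canonical forms of `Y` at `R` and
`ord_R u ≥ - s Δ(P) / c(P)`. Finally, if `κ(K_X + Δ) ≥ dim X - 1` then the numerical dimension is the same:
if `K_X + Δ` is not big then `h⁰(m (K_X + Δ) + A)` grows at most like `m ^ (dim X - 1)` (by helper62,
`Pool.Agent.K4H62.AP.growth_not_big`).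

Compare: in `ImagesOverCurves` (and in the theorem on images of fibrations by curves) the forms are
sections of `K_V - ∑ M p H p`. Here the positivity is only relative to `Y`, and the positivity in the
direction of `Y` comes from `Δ` or from `Y`. `NormalModel`, `IsPrimeDivisor`, `Effective`, `Integral`,
`OrdGe`, `kodairaDim` and `numericalDim` are defined in `Pool.Agent.Y172.Defs`.
-/

set_option autoImplicit false
set_option linter.overlappingInstances false
set_option maxHeartbeats 4000000
set_option synthInstance.maxHeartbeats 400000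

open FF Module Pool.Agent Pool.Agent.W602.GT Pool.Agent.W603.LV Pool.Agent.Y172
open Pool.Agent.W619.PQ (IsUniruled)

namespace Pool.Agent.Results.MP_9a2ae6_ag.PairsOverBases

/-- The canonical form `g dz_1 ∧ ... ∧ dz_e` on `Y`, in the coordinates `z`: its value on vector
fields `D i`. -/
noncomputable def baseForm {E : Type} [Field E] [Algebra ℂ E] {e : ℕ} (z : Fin e → E) (g : E)
    (D : Fin e → Derivation ℂ E E) : E :=
  (Matrix.of fun i j => D i (z j) : Matrix (Fin e) (Fin e) E).det * g

/-- The canonical form `ω` on `V` is `τ ∧ dz`, where `z` are coordinates on `Y` and `τ` is a section of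
`K_{V/Y} - ∑ M p H p`; the variable `t j` is in the block `β j`: if the canonical form `g dz` on `Y` is
regular at the place of `ℂ(Y) = E` under the divisorial place `Q` of `ℂ(V) = K` (this is no condition
if `Q` is trivial on `E`), then the forms `g t ^ a ω` are regular at `Q`, for all monomials `t ^ a` of
degree at most `M p` in the variables of the block `p`. -/
def RelativeTwisted {K E : Type} [Field K] [Field E] [Algebra ℂ K] [Algebra ℂ E] [Algebra E K]
    [IsScalarTower ℂ E K] {N q e : ℕ} (n : ℕ) (z : Fin e → E) (β : Fin N → Fin q)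
    (M : Fin q → ℕ) (t : Fin N → K) (ω : (Fin n → Derivation ℂ K K) → K) : Prop :=
  IsPluri 1 ω ∧ ∀ a : Fin N → ℕ, (∀ b, ∑ j with β j = b, a j ≤ M b) →
    ∀ (g : E) (Q : Place ℂ K), Divisorial n Q →
      (∀ (R : Place ℂ E) (c : ℕ), Over Q R c → RegAt R (baseForm z g)) →
        RegAt Q (fun D => algebraMap E K g * ((∏ j, t j ^ a j) * ω D))

/-- The trace of `ω` on the variety with the function field `F ⊂ K` is not zero: for some vector
fields `D i` on `F` and their extensions `D' i` to `K`, the trace of `ω D'` is not zero. -/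
def TraceNonzero {K : Type} [Field K] [Algebra ℂ K] {n : ℕ} (F : IntermediateField ℂ K)
    (ω : (Fin n → Derivation ℂ K K) → K) : Prop :=
  ∃ (D : Fin n → Derivation ℂ F F) (D' : Fin n → Derivation ℂ K K),
    (∀ i f, D' i (algebraMap F K f) = algebraMap F K (D i f)) ∧ Algebra.trace F K (ω D') ≠ 0

/-- The restrictions of the canonical forms `ω j` on `V` to the geometric generic fibre of
`V → V'`, `ℂ(V') = B`, generate its regular differentials. Here `F` is the function field of the
geometric generic fibre, over the algebraically closed field `Λ`, and `φ : K → F` is the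
restriction; `ξ` is a coordinate of the fibre, `E` are the vector fields dual to the coordinates
`y, ξ` of `V`, and the restriction of `ω j` is `φ (ω j E) dξ`; a differential `f dξ` on the fibre is
regular if `ord_Q f + ord_Q dξ ≥ 0` for all places `Q`, where `ord_Q dξ = - vo Q D`, `D = d/dξ`. -/
def GenerateFibre {K : Type} [Field K] [Algebra ℂ K] {n : ℕ} {J : Type}
    (B : IntermediateField ℂ K) (ω : J → (Fin (n + 1) → Derivation ℂ K K) → K) : Prop :=
  ∀ (Λ F : Type) [Field Λ] [IsAlgClosed Λ] [Algebra ℂ Λ] [Field F] [Algebra Λ F]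
    [Algebra ℂ F] [IsScalarTower ℂ Λ F] (φ : K →ₐ[ℂ] F), IsFF Λ F →
    IntermediateField.adjoin Λ (Set.range φ) = ⊤ →
    (∀ z ∈ B, ∃ a : Λ, algebraMap Λ F a = φ z) →
    (∀ z : K, ¬ IsAlgebraic B z → Transcendental Λ (φ z)) →
    ∀ (y : Fin n → K) (ξ : K), (∀ j, y j ∈ B) →
      IsTranscendenceBasis ℂ (Fin.append y (fun _ : Fin 1 => ξ)) →
    ∀ E : Fin (n + 1) → Derivation ℂ K K,
      (∀ i j, E i (Fin.append y (fun _ : Fin 1 => ξ) j) = if i = j then 1 else 0) →
    ∀ D : Derivation Λ F F, D (φ ξ) = 1 →
    ∀ f : F, f ≠ 0 → (∀ Q : Place Λ F, vo Q D ≤ Q.ord f) →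
      f ∈ Submodule.span Λ (Set.range fun j => φ (ω j E))

/-- The case (b): the generic fibres of `V → V'`, `ℂ(V') = E(t)`, are irreducible curves, the forms
`ω j` generate their regular differentials, and `W` is not uniruled. -/
def CurveCase {K L : Type} [Field K] [Field L] [Algebra ℂ K] [Algebra ℂ L] [Algebra L K]
    [IsScalarTower ℂ L K] (E : IntermediateField ℂ L) {n N : ℕ} (f d : ℕ) (t : Fin N → K)
    {J : Type} (ω : J → (Fin (n + 1) → Derivation ℂ K K) → K) : Prop :=
  f = d + 1 ∧
  (∀ g : K, IsAlgebraic (IntermediateField.adjoin E (Set.range t)) g →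
    g ∈ IntermediateField.adjoin E (Set.range t)) ∧
  GenerateFibre ((IntermediateField.adjoin E (Set.range t)).restrictScalars ℂ) ω ∧
  ¬ IsUniruled ℂ L (n + 1)

/-- The degree `m Λ` of `W'` over its image in the product of `W` and the factors outside of `Λ`: the
degree of the field `L(t)` over its subfield which is generated over `L = ℂ(W)` by the variables
`t j` outside of the blocks in `Λ`. -/
noncomputable def blockDegree {K : Type} [Field K] {N q : ℕ} (L : Type) [Field L] [Algebra L K]
    (β : Fin N → Fin q) (t : Fin N → K) (Λ : Finset (Fin q)) : ℕ :=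
  (IntermediateField.adjoin L (t '' {j | β j ∉ Λ})).relfinrank
    (IntermediateField.adjoin L (Set.range t))

/-- The Kodaira dimension of the smooth projective varieties of dimension `n` over `k` with the
function field `K` is at least `h`: for some `r ≥ 1` there are `r`-fold canonical forms which are
regular at all prime divisors, with `h` algebraically independent ratios. -/
def KappaGe (k K : Type) [Field k] [Field K] [Algebra k K] (n h : ℕ) : Prop :=
  KodGe k K n (fun _ => False) h

/-- `κ(K_Y + Δ_Y) ≥ p`, where `E` is the function field of `Y`, of dimension `e`, and `x` the generic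
point of `X`: for some `s ≥ 1` there are `s`-canonical forms on `Y` with `p` algebraically independent
ratios, and with order at least `- s Δ(P) / c` at the place `R` of `E` under `P`, for all prime divisors
`P` of `X` which are not trivial on `E`, where `c` is the ramification index. -/
def BaseKappaGe {L : Type} [Field L] [Algebra ℂ L] {N : ℕ} (x : Fin (N + 1) → L)
    (Δ : Place ℂ L → ℚ) (E : IntermediateField ℂ L) (e p : ℕ) : Prop :=
  ∃ s : ℕ, 1 ≤ s ∧ ∃ η : Fin (p + 1) → (Fin e → Derivation ℂ E E) → E,
    (∀ j, IsPluri s (η j) ∧ ∀ P : Place ℂ L, IsPrimeDivisor x P → ∀ (R : Place ℂ E) (c : ℕ),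
      Over P R c → OrdGe R (η j) (-(s * Δ P / c))) ∧
    ∃ D, η 0 D ≠ 0 ∧ AlgebraicIndependent ℂ (fun i : Fin p => η i.succ D / η 0 D)

/-- `κ(K_X + Δ) ≥ k`; and `κ(K_X + Δ) = ν(K_X + Δ)` if `k ≥ dim X - 1`. Here `x` is the generic point
of `X` and `n` its dimension. -/
def Conclusion {L : Type} [Field L] [Algebra ℂ L] {N : ℕ} (x : Fin (N + 1) → L) (n : ℕ)
    (Δ : Place ℂ L → ℚ) (k : ℕ) : Prop :=
  (k : WithBot ℕ) ≤ kodairaDim x n Δ ∧ (n ≤ k + 1 →
    ∃ κ : ℕ, kodairaDim x n Δ = (κ : WithBot ℕ) ∧
      ∀ A, Effective x A → Integral x A → numericalDim x n Δ A = (κ : EReal))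

/-- **Abundance for pairs over a base.** Let `K`, `L`, `E` be the function fields of `V`, `W`, `Y`, where
`V → W → Y` are dominant rational maps and `V → W` has finite degree; `dim V = n + 1`, `dim Y = e`, the
fibre `F` of `W → Y` has dimension `f`, and the image of `V_y` under `t` has dimension `d`. Let the
`ω j = τ j ∧ dz` be finitely many canonical forms on `V`, where the `τ j` are sections of
`K_{V/Y} - ∑ M p H p`, such that the trace of one of them on the variety with the function field `L(t)`
is not zero, or such that the conditions of `CurveCase` are satisfied. Let `X` be a normal projective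
variety with the function field `L` and `Δ` an effective `ℚ`-divisor on `X`, and `κ(Y) ≥ p` or
`κ(K_Y + Δ_Y) ≥ p`. Then `κ(K_X + Δ) ≥ r + p`, and `κ(K_X + Δ) = ν(K_X + Δ)` if `r + p ≥ dim X - 1`, for
`r ≤ d` under the condition on the degrees `m Λ`, for `r = d - 1` if the degree of `L(t)` over `L` is at
most `M p` for all `p`, and for `r = dim F` in the curve case if `2 m Λ ≤ 1 + ∑_{p ∈ Λ} M p` for all
`Λ ≠ ∅` and `F` is of general type. -/
theorem result {n e f d N q N' : ℕ} {β : Fin N → Fin q} {M : Fin q → ℕ} {K L : Type} [Field K]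
    [Field L] [Algebra ℂ K] [Algebra ℂ L] [Algebra L K] [IsScalarTower ℂ L K]
    [Algebra.EssFiniteType ℂ K] [FiniteDimensional L K] (E : IntermediateField ℂ L)
    [Algebra.EssFiniteType ℂ E] (hK : Algebra.trdeg ℂ K = (n + 1 : ℕ))
    (hE : Algebra.trdeg ℂ E = e) (hf : Algebra.trdeg E L = f) {z : Fin e → E}
    (hz : IsTranscendenceBasis ℂ z) {t : Fin N → K}
    (hd : Algebra.trdeg E (IntermediateField.adjoin E (Set.range t)) = (d : ℕ))
    {J : Type} [Finite J] {ω : J → (Fin (n + 1) → Derivation ℂ K K) → K}
    (hω : ∀ j, RelativeTwisted (n + 1) z β M t (ω j))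
    (hcase : (∃ j, TraceNonzero ((IntermediateField.adjoin L (Set.range t)).restrictScalars ℂ)
      (ω j)) ∨ CurveCase E f d t ω)
    {x : Fin (N' + 1) → L} (hx : NormalModel x) {Δ : Place ℂ L → ℚ} (hΔ : Effective x Δ) {p : ℕ}
    (hp : KappaGe ℂ E e p ∨ BaseKappaGe x Δ E e p) :
    ((∀ Λ : Finset (Fin q), Λ.Nonempty → blockDegree L β t Λ ≤ 1 + ∑ p ∈ Λ, M p) →
      ∀ r : ℕ, r ≤ d →
        (∀ Λ : Finset (Fin q), Λ.Nonempty →
          Algebra.trdeg E (IntermediateField.adjoin E (t '' {j | β j ∉ Λ})) < (r : ℕ) →
          2 * blockDegree L β t Λ ≤ 1 + ∑ p ∈ Λ, M p) →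
        Conclusion x (n + 1) Δ (r + p)) ∧
    ((∀ p, finrank L (IntermediateField.adjoin L (Set.range t)) ≤ M p) →
      Conclusion x (n + 1) Δ (d - 1 + p)) ∧
    (CurveCase E f d t ω →
      (∀ Λ : Finset (Fin q), Λ.Nonempty → 2 * blockDegree L β t Λ ≤ 1 + ∑ p ∈ Λ, M p) →
      KappaGe E L f f → Conclusion x (n + 1) Δ (f + p)) := by
  classical
  have hL : Algebra.trdeg ℂ L = (n + 1 : ℕ) := Pool.Agent.Y184.NT.trdeg_below (K := K) hK
  have hB : Pool.Agent.K4H25.RP.BaseGe x Δ E e p := by
    rcases hp with hp | hp
    · exact Pool.Agent.K4H25.RP.base_of_kod hL hE hx hΔ hp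
    · exact hp
  have hspan : GenerateFibre ((IntermediateField.adjoin E (Set.range t)).restrictScalars ℂ) ω →
      Pool.Agent.K4H25.LP.SpanFibL
      ((IntermediateField.adjoin E (Set.range t)).restrictScalars ℂ) (fun _ => False) ω := by
    intro hgen Λ F _ _ _ _ _ _ _ φ h1 h2 h3 h4 y ξ h5 h6 E' h7 D h8 f h9 _ h10
    refine hgen Λ F φ h1 h2 h3 h4 y ξ h5 h6 E' h7 D h8 f h9 fun Q => h10 Q ?_
    rintro ⟨P, c, -, -, h⟩
    exact h
  obtain ⟨j, hj⟩ : ∃ j, TraceNonzero
      ((IntermediateField.adjoin L (Set.range t)).restrictScalars ℂ) (ω j) := by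
    rcases hcase with h | ⟨rfl, hcl, hgen, hu⟩
    · exact h
    · exact Pool.Agent.K4H25.RP.exists_trace_curves hK hE hf hd hcl (hspan hgen) hu
  obtain ⟨h1, h2⟩ := Pool.Agent.K4H25.RP.main_pairs hK hE hz (hω j) hj hd hx hΔ hB
  refine ⟨h1, h2, ?_⟩
  rintro ⟨rfl, hcl, hgen, hu⟩ hm hgt
  exact Pool.Agent.K4H25.RP.gt_pairs hK hE hf hz hω hd hcl (hspan hgen) hm hu hx hΔ hB hgt

end Pool.Agent.Results.MP_9a2ae6_ag.PairsOverBases
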