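import Pool.Agent.K4H25.MG.D
import Pool.Agent.K4H25.LC.C1

/-!
# Abundance for klt pairs with a common finite cover with a product-quotient variety

Let `C 0, ..., C (n - 1)` be smooth projective curves over the complex numbers, of arbitrary genera,
let `V = C 0 × ... × C (n - 1)`, and let `G` be a finite group of automorphisms of `V` which permutes
the factors (that is, `g` is a permutation of the coordinates composed with isomorphisms between the
curves). An element `g ≠ 1` of `G`, of order `N`, is called junior if at some fixed point it acts on
the cotangent space of `V` with the eigenvalues `ζ ^ a 0, ..., ζ ^ a (n - 1)`, where `ζ` is a primitive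
`N`-th root of unity, `a i ≥ 0` and `∑ i, a i < N` (`Junior`, `JuniorSwap`). These elements are
responsible for the singularities of `V / G` which are not canonical (Reid, Tai). We assume that the
junior elements preserve the factors, and that those subgroups `H` of `G` are abelian which preserve
the factors, are generated by junior elements, and such that, for all `i`, the curve `C i / H` is
rational or `H` is trivial on `C i` (`Small`). For instance, this is true if `G` is abelian and
preserves the factors, or if the junior elements of `G` preserve the factors and commute, or if there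
are no junior elements.

Let `(X, Δ)` be a projective pair of dimension `n`, `X` normal and `Δ` an effective `ℚ`-divisor, which
is commensurable with `V / G`: there is a finite extension `F` of the function field `K` of `X` and of
the function field of `V / G`, such that `K_X + Δ` and the canonical class of `V / G` have the same
pull-back to `F`; that is, if the place `P'` of `F` lies over the prime divisor `P` of `X` and over
the place `Q` of `ℂ(V / G)`, with the ramification indices `e` and `e'`, then `e (1 - Δ P) = e'`; and
the log discrepancy of `(X, Δ)` at each divisor `P` over `X` is at least `e' / e` (`IsCommensurable`).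
In particular the log discrepancies are positive, so `(X, Δ)` is klt.

**Theorem.** *`κ(K_X + Δ) = ν(K_X + Δ)`:* either both are equal to some `d ≥ 0`, or both are `-∞` and
`K_X + Δ` is not pseudo-effective. So `K_X + Δ` is semiample if it is nef, by the theorem of Kawamata
on nef log canonical divisors of klt pairs with `κ = ν` (this last step is not part of the Lean
statement).

Examples. (a) Let `Y` be a projective variety with canonical singularities (for instance smooth) which
is birational to `V / G`, `H` any finite group of automorphisms of `Y`, not assumed to be compatible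
with the curves, `X = Y / H`, and let `Δ` be the branch divisor `∑ (1 - 1 / e) D`, where `e` is the
ramification index over `D`. Here `X` can be rational, also if `K_X + Δ` is big. (b) In particular
`Δ` may have components in the fibres of the maps of `X` to the curves `C i / G`: take for `H` a group
`G' / G`, where `G` is a normal subgroup of a finite group `G'` of automorphisms of `V`; the subgroup
`G` satisfies the condition (for instance it is abelian), but the group `G'` is arbitrary.
(c) `X` has a finite quasi-etale cover, Galois or not, which is birational to `V / G`, and `Δ = 0`.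

Proof. `κ = ν` for the canonical class of `V / G`: see `Pool.Agent.K4H25.GW` and the file
`MP_97d78d_ag/ProductQuotients` (the reduction to the subgroup generated by the junior elements, the
induction over the curves `C i` such that `C i / G` is not rational, and Kummer theory and the theorem
on nondegenerate systems of Laurent polynomials for abelian groups with rational quotients). Both
dimensions do not change under pull-back to finite covers and under descent (`fin_all`,
`pulled_data`, by symmetric functions and traces of sections).
-/

set_option autoImplicit false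
set_option linter.overlappingInstances false
set_option maxHeartbeats 4000000
set_option synthInstance.maxHeartbeats 400000

open FF IntermediateField Pool.Agent Pool.Agent.Y172 Pool.Agent.Y191 Pool.Agent.W602.GT
  Pool.Agent.Y174 Pool.Agent.R885

namespace Pool.Agent.Results.MP_9a2ae6_ag.ProductQuotientPairs

open Pool.Agent.W603.LV (Ge)

section

variable {M : Type} [Field M] [Algebra ℂ M]

/-- The automorphism `g` fixes the point (the place) `w` of the curve with the function field `C` and
acts on the cotangent line as `θ`: `g t = θ t + (higher order)` for the local parameters `t`. -/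
def Rotates (C : IntermediateField ℂ M) (g : M ≃ₐ[ℂ] M) (w : Place ℂ C) (θ : ℂ) : Prop :=
  ∀ t z : C, w.ord t = 1 → g t = z → Ge w 2 (z - algebraMap ℂ C θ * t)

/-- The automorphism `g ≠ 1`, which preserves the curves `C i`, is junior: for a primitive root of
unity `ζ` of order `N = orderOf g` it acts at some points of the curves as the rotations by `ζ ^ a i`
with `a i ≥ 0` and `∑ i, a i < N`. -/
def Junior {n : ℕ} (C : Fin n → IntermediateField ℂ M) (g : M ≃ₐ[ℂ] M) : Prop :=
  g ≠ 1 ∧ ∃ (ζ : ℂ) (w : ∀ i, Place ℂ (C i)) (a : Fin n → ℕ), IsPrimitiveRoot ζ (orderOf g) ∧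
    (∀ i, Rotates (C i) g (w i) (ζ ^ a i)) ∧ ∑ i, a i < orderOf g

/-- The automorphism `g` swaps the curves `i` and `j`, preserves the others, and is junior. Let `N` be
the order of `g` and `ζ` a primitive `N`-th root of unity. At the fixed point `g` acts on the curves
`l ≠ i, j` as the rotations by `ζ ^ a l` and `g ^ 2` acts on the curve `i` as the rotation by
`ζ ^ (2 a i)`. So `g` has the eigenvalues `ζ ^ a i` and `- ζ ^ a i = ζ ^ (a i + N / 2)` on the
cotangent space of `C i × C j`, and junior means that `∑_{l ≠ i, j} a l + 2 a i + N / 2 < N`. -/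
def JuniorSwap {n : ℕ} (C : Fin n → IntermediateField ℂ M) (g : M ≃ₐ[ℂ] M) : Prop :=
  ∃ i j, i ≠ j ∧ (∀ z ∈ C i, g z ∈ C j) ∧ (∀ z ∈ C j, g z ∈ C i) ∧
    (∀ l, l ≠ i → l ≠ j → ∀ z ∈ C l, g z ∈ C l) ∧
    ∃ (ζ : ℂ) (w : ∀ l, Place ℂ (C l)) (a : Fin n → ℕ), IsPrimitiveRoot ζ (orderOf g) ∧
      (∀ l, l ≠ i → l ≠ j → Rotates (C l) g (w l) (ζ ^ a l)) ∧
      Rotates (C i) (g ^ 2) (w i) (ζ ^ (2 * a i)) ∧
      2 * ∑ l ∈ (Finset.univ.erase i).erase j, a l + 4 * a i < orderOf g

/-- The subgroup `H` preserves the curves, it is generated by junior elements, and for every `i` it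
is trivial on the curve `C i` or the curve `C i / H` is rational (its function field, the field of the
`H`-invariant functions on `C i`, is generated by one element). -/
structure Small {n : ℕ} (C : Fin n → IntermediateField ℂ M) (H : Subgroup (M ≃ₐ[ℂ] M)) :
    Prop where
  stable : ∀ g ∈ H, ∀ i, ∀ z ∈ C i, g z ∈ C i
  junior : Subgroup.closure {g | g ∈ H ∧ Junior C g} = H
  rational : ∀ i, (∀ g ∈ H, ∀ z ∈ C i, g z = z) ∨ ∃ t : M, ℂ⟮t⟯ = C i ⊓ fixedField H

end

/-- `(X, Δ)` is a projective pair with function field `K`, `X` normal and `Δ` effective, which is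
commensurable with the variety `V₀` with the function field `L`: the pull-backs of `K_X + Δ` and of
the canonical class of `V₀` to the common finite extension `F` of `K` and `L` coincide. That is, if the
place `P'` of `F` lies over the prime divisor `P` of `X` and over the place `Q` of `L`, with the
ramification indices `e` and `e'`, then `e (1 - Δ P) = e'`. Moreover, for all divisors `P` over `X`,
the log discrepancy of `(X, Δ)` along `P` is at least `e' / e`. -/
structure IsCommensurable (L F : Type) [Field L] [Field F] [Algebra ℂ L] [Algebra ℂ F]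
    [Algebra L F] {K : Type} [Field K] [Algebra ℂ K] [Algebra K F] {N : ℕ} (y : Fin (N + 1) → K)
    (n : ℕ) (Δ : Place ℂ K → ℚ) : Prop where
  normal : NormalModel y
  effective : Effective y Δ
  mult : ∀ P, IsPrimeDivisor y P → ∀ (P' : Place ℂ F) (Q : Place ℂ L) (e e' : ℕ),
    LiesOn P' P e → LiesOn P' Q e' → (e : ℚ) * (1 - Δ P) = e'
  disc : ∀ P, Divisorial n P → ∀ (P' : Place ℂ F) (Q : Place ℂ L) (e e' : ℕ),
    LiesOn P' P e → LiesOn P' Q e' → LogDisc y n Δ P (e' / e)

/-- **Abundance for the pairs commensurable with product-quotient varieties.** Let `M` be the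
function field of the product `V` of `n` curves, where the curve `i` has the function field `C i`: the
field `M` is generated by the `C i` and has transcendence degree `n`. Let `G` be a finite group of
automorphisms of `M` over `ℂ` which permutes the fields `C i`. Suppose that the junior elements of `G`
preserve the curves, and that the subgroups `H` of `G` are abelian which preserve the curves, are
generated by junior elements, and have rational quotients `C i / H` for all `i` such that `H` is not
trivial on `C i`.

Let `(X, Δ)` be a projective pair, of dimension `n`, with the generic point `y` and the function field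
`K`, and `F` a finite extension of `K` and of the field of invariants, the function field of `V / G`,
such that the pull-backs of `K_X + Δ` and of the canonical class of `V / G` to `F` coincide. Then
`κ(K_X + Δ) = ν(K_X + Δ)`: either both are equal to some `d ≥ 0`, or both are `-∞` and `K_X + Δ` is
not pseudo-effective (`m (K_X + Δ) + A` has no nonzero sections for large `m`, for all effective
divisors `A`). -/
theorem result {n : ℕ} {M : Type} [Field M] [Algebra ℂ M] {C : Fin n → IntermediateField ℂ M}
    (hfg : ∀ i, Algebra.EssFiniteType ℂ (C i)) (hone : ∀ i, Algebra.trdeg ℂ (C i) = 1)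
    (hgen : ⨆ i, C i = ⊤) (hM : Algebra.trdeg ℂ M = (n : ℕ))
    {G : Subgroup (M ≃ₐ[ℂ] M)} [Finite G]
    (hG : ∀ g ∈ G, ∀ i, ∃ j, (C i).map (g : M →ₐ[ℂ] M) = C j)
    (hswap : ∀ g ∈ G, ¬ JuniorSwap C g)
    (hsmall : ∀ H ≤ G, Small C H → ∀ g ∈ H, ∀ h ∈ H, g * h = h * g)
    {K F : Type} [Field K] [Field F] [Algebra ℂ K] [Algebra ℂ F] [Algebra K F]
    [Algebra (fixedField G) F] [IsScalarTower ℂ K F] [IsScalarTower ℂ (fixedField G) F]
    [FiniteDimensional K F] [FiniteDimensional (fixedField G) F]
    {N : ℕ} {y : Fin (N + 1) → K} {Δ : Place ℂ K → ℚ}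
    (hy : IsCommensurable (fixedField G) F y n Δ) :
    (∃ k : ℕ, k ≤ n ∧ kodairaDim y n Δ = (k : WithBot ℕ) ∧
      ∀ A, Effective y A → Integral y A → numericalDim y n Δ A = (k : EReal)) ∨
    (kodairaDim y n Δ = ⊥ ∧ ∀ A, Effective y A →
      (∃ m₀ : ℕ, ∀ m : ℕ, m₀ ≤ m → h0 y n m (m • Δ + A) = 0) ∧ numericalDim y n Δ A = ⊥) := by
  have hFF : ∀ i, IsFF ℂ (C i) := fun i => ⟨hfg i, hone i⟩
  obtain ⟨J, hJ⟩ : ∃ J : Subgroup (M ≃ₐ[ℂ] M), J = Subgroup.closure {g | g ∈ G ∧
      (∀ i, ∀ z ∈ C i, g z ∈ C i) ∧ Junior C g} := ⟨_, rfl⟩
  have hJG : J ≤ G := by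
    rw [hJ]
    exact (Subgroup.closure_le G).2 fun g hg => hg.1
  have hfJ : Finite J := Finite.of_injective (Subgroup.inclusion hJG)
    (Subgroup.inclusion_injective hJG)
  have hstJ : ∀ g ∈ J, ∀ i, ∀ z ∈ C i, g z ∈ C i := by
    intro g hg
    rw [hJ] at hg
    induction hg using Subgroup.closure_induction with
    | mem x hx => exact hx.2.1
    | one => exact fun i z hz => hz
    | mul x y _ _ hx hy => exact fun i z hz => hx i _ (hy i z hz)
    | inv x hx h =>
      intro i z hz
      have hxG : x ∈ G := (Subgroup.closure_le G).2 (fun g hg => hg.1) hx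
      obtain ⟨m, hm⟩ : ∃ m : ℕ, x⁻¹ = x ^ m := by
        have h1 : (⟨x, hxG⟩ : G) ^ orderOf (⟨x, hxG⟩ : G) = 1 := pow_orderOf_eq_one _
        have h2 : 0 < orderOf (⟨x, hxG⟩ : G) := orderOf_pos _
        refine ⟨orderOf (⟨x, hxG⟩ : G) - 1, ?_⟩
        have h3 : x ^ orderOf (⟨x, hxG⟩ : G) = 1 := congrArg Subtype.val h1
        rw [inv_eq_iff_mul_eq_one, ← pow_succ', Nat.sub_add_cancel h2]
        exact h3
      rw [hm]
      clear hm hx
      induction m with
      | zero => exact hz
      | succ m ih =>
        rw [pow_succ']
        exact h i _ ih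
  have h0 := Pool.Agent.K4H25.GW.main_B n M C J hM hgen hstJ
    (fun H hH hs => hsmall H (hH.trans hJG)
      ⟨fun g hg => hstJ g (hH hg), hs.junior, hs.rational⟩)
  have h1 := Pool.Agent.K4H25.GW.junior_red' C hM hgen G hG J hJG
    (fun g hg hst hj => by
      rw [hJ]
      exact Subgroup.subset_closure ⟨hg, hst, hj⟩) hswap h0
  have hfin : FiniteDimensional (fixedField G) M := Pool.Agent.W619.PQ.fixed_finite G
  have hessM : Algebra.EssFiniteType ℂ M := by
    have h2 : Algebra.EssFiniteType ℂ ↥(⨆ i, C i) :=
      essFiniteType_iff.2 (fg_iSup fun j => essFiniteType_iff.1 (hfg j))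
    rw [hgen] at h2
    exact (Algebra.EssFiniteType.iff_of_algEquiv (topEquiv (F := ℂ) (E := M))).1 h2
  have hessG : Algebra.EssFiniteType ℂ (fixedField G) :=
    Pool.Agent.TH466.QG.ess_below (K := M)
  have halgG := Pool.Agent.W721.PG.EFF2.alg_fixed G
  obtain ⟨htG, -⟩ := Pool.Agent.W721.PG.EFF2.exists_basis (fixedField G) n hM
  have hz : (fun P : Place ℂ (fixedField G) =>
      (((fun _ : Place ℂ (fixedField G) => (0 : ℚ)) P : ℚ) : ℝ)) = fun _ => 0 := by
    funext P
    exact Rat.cast_zero
  refine Pool.Agent.K4H25.LC.commens (L := fixedField G) (M := F) (b := fun _ => (0 : ℚ)) htG hessG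
    (by rw [hz]; exact h1) ⟨hy.normal, hy.effective, fun P hP P' Q e e' h2 h3 => ?_,
      fun P hP P' Q e e' h2 h3 => ?_⟩
  · rw [sub_zero, mul_one]
    exact hy.mult P hP P' Q e e' h2 h3
  · rw [sub_zero, mul_one]
    exact hy.disc P hP P' Q e e' h2 h3

end Pool.Agent.Results.MP_9a2ae6_ag.ProductQuotientPairs
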